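import Pool.Agent.H429R4.FW.Orbits

/-!
# Algorithms with free linear operations: invisible shifts do not change the products
-/

namespace Pool.Agent.H429R4.PO

open Finset
open Pool.Agent.H429R4.FW
open Pool.Agent.H30R2.PS (dot dot_comm dot_add add_dot smul_dot zero_dot dot_zero dot_single sep
  decomp wt wt_add_le wt_zero wt_smul_le wt_single)

set_option linter.unusedSectionVars false

/-- An algorithm that reads an object `x : X` and computes products of elements of the commutative
ring `K`, indexed by `G`. The factors `left g` and `right g` of the product `g`, as functions of the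
object, are arbitrary linear combinations of the functions in `base` and of the products of smaller
rank. -/
structure Algo (X K G : Type) [CommRing K] (base : Set (X → K)) where
  left : G → X → K
  right : G → X → K
  rank : G → ℕ
  left_mem : ∀ g, left g ∈ Submodule.span K
    (base ∪ {P | ∃ h, rank h < rank g ∧ P = left h * right h})
  right_mem : ∀ g, right g ∈ Submodule.span K
    (base ∪ {P | ∃ h, rank h < rank g ∧ P = left h * right h})

/-- The algorithm computes the function `F`: it is a linear combination of the functions in `base`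
and the products. -/
def Algo.Computes {X K G : Type} [CommRing K] {base : Set (X → K)} (C : Algo X K G base)
    (F : X → K) : Prop :=
  F ∈ Submodule.span K (base ∪ {P | ∃ h, P = C.left h * C.right h})

/-- The transforms of the products of the algorithm under the maps `f ∈ A` of the objects: the
unordered pairs of the transforms of the two factors. -/
def Algo.products {X K G : Type} [CommRing K] {base : Set (X → K)} (C : Algo X K G base)
    (A : Set (X → X)) : Set (Sym2 (X → K)) :=
  {e | ∃ f ∈ A, ∃ g, e = s(C.left g ∘ f, C.right g ∘ f)}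

variable {X K Ga : Type} [CommRing K] {base : Set (X → K)}
  {G : Type} [AddCommGroup G] [Module (ZMod 2) G] {a : G → X → X}
  {S : Type} [Fintype S] [DecidableEq S] {Bm : G →ₗ[ZMod 2] (S → ZMod 2)} {τ : ℕ}

/-- the transform of a pair of functions -/
def pre2 (f : X → X) (ξ : (X → K) × (X → K)) : (X → K) × (X → K) := (ξ.1 ∘ f, ξ.2 ∘ f)

theorem isAction_pre2 (ha : IsAction a) :
    IsAction fun (u : G) (ξ : (X → K) × (X → K)) => pre2 (a u) ξ where
  zero ξ := by
    have h : a 0 = id := funext fun x => ha.zero x
    rw [h]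
    rfl
  add u u' ξ := by
    have h : a (u + u') = a u' ∘ a u := funext fun x => ha.add' u u' x
    rw [h]
    rfl

/-- the factors of a product -/
def factors (C : Algo X K Ga base) (g : Ga) : (X → K) × (X → K) := (C.left g, C.right g)

theorem stab_left (ha : IsAction a) (C : Algo X K Ga base) (g : Ga) :
    stab (isAction_pre2 ha) (factors C g) ≤ fixer ha (C.left g) := by
  intro u hu x
  rw [mem_stab] at hu
  exact congrFun (congrArg Prod.fst hu) x

theorem stab_right (ha : IsAction a) (C : Algo X K Ga base) (g : Ga) :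
    stab (isAction_pre2 ha) (factors C g) ≤ fixer ha (C.right g) := by
  intro u hu x
  rw [mem_stab] at hu
  exact congrFun (congrArg Prod.snd hu) x

theorem stab_prod (ha : IsAction a) (C : Algo X K Ga base) (g : Ga) :
    stab (isAction_pre2 ha) (factors C g) ≤ fixer ha (C.left g * C.right g) := by
  intro u hu x
  have h1 := stab_left ha C g hu x
  have h2 := stab_right ha C g hu x
  rw [Pi.mul_apply, Pi.mul_apply, h1, h2]

/-- **Averaging.** -/
theorem lin_shift [Finite G] (ha : IsAction a) (ins : (S → ZMod 2) → X)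
    (hins : ∀ u t, a u (ins t) = ins (t + Bm u)) (h2 : ∀ y : K, 2 * y = 0 → y = 0)
    (H : Submodule (ZMod 2) G) (𝒮 : Set (X → K)) (F : X → K) (hF : F ∈ Submodule.span K 𝒮)
    (hfix : H ≤ fixer ha F) (e : S → ZMod 2)
    (hs : ∀ b ∈ 𝒮, ∃ s ∈ H, ∀ t, b (ins (t + (e + Bm s))) = b (ins t)) (t : S → ZMod 2) :
    F (ins (t + e)) = F (ins t) := by
  classical
  have : Fintype H := Fintype.ofFinite H
  have key : ∑ u : H, F (ins (t + e + Bm u)) = ∑ u : H, F (ins (t + Bm u)) := by
    clear hfix
    induction hF using Submodule.span_induction with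
    | mem b hb =>
      obtain ⟨s, hsH, hs⟩ := hs b hb
      have hBB : Bm s + Bm s = 0 := by rw [← map_add, add_self_G, map_zero]
      calc ∑ u : H, b (ins (t + e + Bm u)) = ∑ u : H, b (ins (t + Bm (u + ⟨s, hsH⟩ : H))) := by
            refine Finset.sum_congr rfl fun u _ => ?_
            rw [← hs (t + Bm (u + ⟨s, hsH⟩ : H))]
            congr 2
            rw [Submodule.coe_add, map_add]
            calc t + e + Bm u = t + Bm u + (e + (Bm s + Bm s)) := by rw [hBB, add_zero]; abel
              _ = t + (Bm u + Bm s) + (e + Bm s) := by abel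
        _ = ∑ u : H, b (ins (t + Bm u)) :=
            Fintype.sum_equiv (Equiv.addRight (⟨s, hsH⟩ : H)) _ _ fun u => rfl
    | zero => rfl
    | add x y _ _ hx hy =>
      simp only [Pi.add_apply, Finset.sum_add_distrib]
      rw [hx, hy]
    | smul c x _ hx =>
      simp only [Pi.smul_apply, ← Finset.smul_sum]
      rw [hx]
  have e1 : ∀ u : H, F (ins (t + e + Bm u)) = F (ins (t + e)) := by
    intro u
    have := hfix u.2 (ins (t + e))
    rwa [hins] at this
  have e2 : ∀ u : H, F (ins (t + Bm u)) = F (ins t) := by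
    intro u
    have := hfix u.2 (ins t)
    rwa [hins] at this
  simp only [e1, e2, Finset.sum_const, nsmul_eq_mul] at key
  have hcard : ∃ k, Fintype.card H = 2 ^ k := by
    refine ⟨Module.finrank (ZMod 2) H, ?_⟩
    rw [← Nat.card_eq_fintype_card, Module.natCard_eq_pow_finrank (K := ZMod 2), Nat.card_zmod]
  obtain ⟨k, hk⟩ := hcard
  rw [Finset.card_univ, hk] at key
  have h3 : ∀ (k : ℕ) (y : K), ((2 ^ k : ℕ) : K) * y = 0 → y = 0 := by
    intro k
    induction k with
    | zero =>
      intro y hy
      simpa using hy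
    | succ k ih =>
      intro y hy
      apply h2
      apply ih
      rw [pow_succ] at hy
      push_cast at hy ⊢
      rw [← hy]
      ring
  have h4 := h3 k (F (ins (t + e)) - F (ins t)) (by rw [mul_sub, key, sub_self])
  exact sub_eq_zero.1 h4

/-- The values of the products do not change under invisible shifts. -/
theorem prod_shift [Finite G] (ha : IsAction a) (ins : (S → ZMod 2) → X)
    (hins : ∀ u t, a u (ins t) = ins (t + Bm u)) (h2 : ∀ y : K, 2 * y = 0 → y = 0)
    (hbase : ∀ b ∈ base, ∀ H : Submodule (ZMod 2) G, Mid Bm τ H → ∀ e, Kills Bm τ H e →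
      ∃ s ∈ H, ∀ t, b (ins (t + (e + Bm s))) = b (ins t))
    (C : Algo X K Ga base)
    (hmid : ∀ g, Mid Bm τ (stab (isAction_pre2 ha) (factors C g)))
    (g : Ga) (t e : S → ZMod 2) (he : Kills Bm τ (fixer ha (C.left g * C.right g)) e) :
    (C.left g * C.right g) (ins (t + e)) = (C.left g * C.right g) (ins t) := by
  induction hr : C.rank g using Nat.strong_induction_on generalizing g t e with
  | _ r ih =>
    obtain ⟨s, hs, hu'⟩ := exists_shift (hmid g) ((hmid g).mono (stab_prod ha C g)) he
    set e₁ := e + Bm s with he₁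
    set t₁ := t + Bm s with ht₁
    have hBB : Bm s + Bm s = 0 := by rw [← map_add, add_self_G, map_zero]
    have e1 : t + e = t₁ + e₁ := by
      rw [ht₁, he₁, add_comm e, ← add_assoc, add_assoc t, hBB, add_zero]
    have e2 : (C.left g * C.right g) (ins t₁) = (C.left g * C.right g) (ins t) := by
      have h2 := hs (ins t)
      rw [hins] at h2
      exact h2
    have hgen : ∀ b ∈ base ∪ {P | ∃ h, C.rank h < C.rank g ∧ P = C.left h * C.right h},
        ∃ s ∈ stab (isAction_pre2 ha) (factors C g),
          ∀ t, b (ins (t + (e₁ + Bm s))) = b (ins t) := by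
      rintro b (hb | ⟨h, hh, rfl⟩)
      · exact hbase b hb _ (hmid g) e₁ hu'
      · obtain ⟨s', hs', hk⟩ := exists_shift ((hmid h).mono (stab_prod ha C h)) (hmid g) hu'
        exact ⟨s', hs', fun t' => ih (C.rank h) (by rw [← hr]; exact hh) h t' _ hk rfl⟩
    have e3 := lin_shift ha ins hins h2 _ _ (C.left g) (C.left_mem g) (stab_left ha C g) e₁ hgen t₁
    have e4 := lin_shift ha ins hins h2 _ _ (C.right g) (C.right_mem g) (stab_right ha C g) e₁
      hgen t₁
    rw [e1, ← e2, Pi.mul_apply, Pi.mul_apply, e3, e4]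

/-- Some shift that changes the long combination `c` does not change the function computed. -/
theorem output_shift [Finite G] (ha : IsAction a) (ins : (S → ZMod 2) → X)
    (hins : ∀ u t, a u (ins t) = ins (t + Bm u)) (h2 : ∀ y : K, 2 * y = 0 → y = 0)
    (hbase : ∀ b ∈ base, ∀ H : Submodule (ZMod 2) G, Mid Bm τ H → ∀ e, Kills Bm τ H e →
      ∃ s ∈ H, ∀ t, b (ins (t + (e + Bm s))) = b (ins t))
    (C : Algo X K Ga base)
    (hmid : ∀ g, Mid Bm τ (stab (isAction_pre2 ha) (factors C g)))
    (htop : Mid Bm τ (⊤ : Submodule (ZMod 2) G))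
    (F : X → K) (hC : C.Computes F) (hF : ∀ u x, F (a u x) = F x)
    (c : S → ZMod 2) (hc : τ < wt c) :
    ∃ e : S → ZMod 2, dot c e = 1 ∧ ∀ t, F (ins (t + e)) = F (ins t) := by
  have h1 : c ∉ vis htop := by
    rintro ⟨h, _⟩
    omega
  obtain ⟨e, he, hce⟩ := sep _ c h1
  refine ⟨e, ?_, fun t => ?_⟩
  · rw [dot_comm]
    have : ∀ z : ZMod 2, z ≠ 0 → z = 1 := by decide
    exact this _ hce
  · have hk : Kills Bm τ (⊤ : Submodule (ZMod 2) G) e := by
      intro x hx hx'
      rw [dot_comm]
      exact he x ⟨hx, hx'⟩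
    refine lin_shift ha ins hins h2 ⊤ _ F hC (fun u _ x => hF u x) e ?_ t
    rintro b (hb | ⟨h, rfl⟩)
    · exact hbase b hb _ htop e hk
    · obtain ⟨s', hs', hk'⟩ := exists_shift ((hmid h).mono (stab_prod ha C h)) htop hk
      exact ⟨s', hs', fun t' => prod_shift ha ins hins h2 hbase C hmid h t' _ hk'⟩

/-- The coordinates. -/
theorem coord_shift (b : X → K) (ins : (S → ZMod 2) → X) (loc : Set S)
    (hloc : ∀ t e, (∀ s ∈ loc, e s = 0) → b (ins (t + e)) = b (ins t))
    (Fs : Finset S) (hFs : Fs.card ≤ τ) (hsub : ∀ s ∈ loc, s ∈ Fs)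
    (H : Submodule (ZMod 2) G) (hH : Mid Bm τ H) (e : S → ZMod 2) (he : Kills Bm τ H e) :
    ∃ s ∈ H, ∀ t, b (ins (t + (e + Bm s))) = b (ins t) := by
  classical
  let U : Submodule (ZMod 2) (S → ZMod 2) :=
    { carrier := {μ | ∀ s, s ∉ loc → μ s = 0}
      add_mem' := by
        intro x y hx hy s hs
        rw [Pi.add_apply, hx s hs, hy s hs, add_zero]
      zero_mem' := fun s _ => rfl
      smul_mem' := by
        intro c x hx s hs
        rw [Pi.smul_apply, hx s hs, smul_zero] }
  obtain ⟨e', q, he', hq, rfl⟩ := decomp U (vis hH) (H.map Bm)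
    (by
      intro μ hμ hk
      refine ⟨?_, fun u hu => hk _ (Submodule.mem_map_of_mem hu)⟩
      refine le_trans ?_ hFs
      unfold wt
      refine Finset.card_le_card ?_
      intro s hs
      rw [Finset.mem_filter] at hs
      by_contra hcon
      exact hs.2 (hμ s fun h => hcon (hsub s h))) e
    (fun s hs => he s hs.1 hs.2)
  rw [Submodule.mem_map] at hq
  obtain ⟨u, hu, rfl⟩ := hq
  refine ⟨u, hu, fun t => ?_⟩
  have hBB : Bm u + Bm u = 0 := by rw [← map_add, add_self_G, map_zero]
  have e1 : e' + Bm u + Bm u = e' := by rw [add_assoc, hBB, add_zero]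
  rw [e1]
  refine hloc t e' fun s hs => ?_
  have h1 := he' (Pi.single s 1) (by
    intro s' hs'
    have hne : s' ≠ s := by
      rintro rfl
      exact hs' hs
    exact Pi.single_eq_of_ne hne _)
  rw [dot_single] at h1
  exact h1

end Pool.Agent.H429R4.PO
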