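import Pool.Agent.H429R4.PO.Engine
import Pool.Agent.H429R4.FW.Permanent

/-!
# Algorithms for the permanent have many products
-/

namespace Pool.Agent.H429R4.PO

open Finset
open Pool.Agent.H429R4.FW
open Pool.Agent.H30R2.PS (Slot Gp Four Rw Cl rowAct colAct setup BB bad_one perp_card pair dot wt
  PP chi chi_add chi_eq_sg sum_PP permanent_eq quadPerm pairPerm exists_extend locc)

set_option linter.unusedSectionVars false

section count

variable {G Ξ : Type} [AddCommGroup G] [Module (ZMod 2) G] {ρ : G → Ξ → Ξ}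

open Classical in
/-- The sum of the indices of the different stabilisers of the members of a closed set is at most
its size. -/
theorem sum_index_gen [Finite G] (hρ : IsAction ρ) (Wr : Set Ξ) (hfin : Wr.Finite)
    (hcl : ∀ ξ ∈ Wr, ∀ s, ρ s ξ ∈ Wr) (Hs : Finset (Submodule (ZMod 2) G))
    (hHs : ∀ H ∈ Hs, ∃ ξ ∈ Wr, stab hρ ξ = H) (P : Submodule (ZMod 2) G → ℕ)
    (hP : ∀ H, P H * Nat.card H = Nat.card G) :
    ∑ H ∈ Hs, P H ≤ Nat.card Wr := by
  have : Finite Wr := hfin
  let _ := Fintype.ofFinite Wr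
  have h1 : ∀ H ∈ Hs, P H ≤ (univ.filter fun ξ : Wr => stab hρ ξ.1 = H).card := by
    intro H hH
    obtain ⟨ξ, hξ, rfl⟩ := hHs H hH
    have h2 := orbit_le hρ Wr hfin hcl hξ
    rw [← hP (stab hρ ξ)] at h2
    have h3 : 0 < Nat.card (stab hρ ξ) := Nat.card_pos
    have h4 := Nat.le_of_mul_le_mul_right h2 h3
    rwa [Nat.card_eq_fintype_card, Fintype.card_subtype] at h4
  refine (sum_le_sum h1).trans ?_
  rw [← card_biUnion]
  · refine (card_le_card (subset_univ _)).trans (le_of_eq ?_)
    rw [card_univ, ← Nat.card_eq_fintype_card]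
  · intro H _ H' _ hne
    rw [Function.onFun, Finset.disjoint_left]
    intro ξ hξ hξ'
    rw [mem_filter] at hξ hξ'
    exact hne (hξ.2.symm.trans hξ'.2)

end count

section ordered

variable {X K Ga : Type} [CommRing K] {base : Set (X → K)}
  {G : Type} [AddCommGroup G] [Module (ZMod 2) G] {a : G → X → X}

/-- the ordered transforms -/
def ordered (a : G → X → X) (C : Algo X K Ga base) : Set ((X → K) × (X → K)) :=
  Set.range fun p : G × Ga => pre2 (a p.1) (factors C p.2)

theorem ordered_finite [Finite G] [Finite Ga] (C : Algo X K Ga base) : (ordered a C).Finite :=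
  Set.finite_range _

theorem ordered_closed (ha : IsAction a) (C : Algo X K Ga base) :
    ∀ ξ ∈ ordered a C, ∀ u : G, pre2 (a u) ξ ∈ ordered a C := by
  rintro _ ⟨⟨u', g⟩, rfl⟩ u
  refine ⟨(u' + u, g), ?_⟩
  have h : a (u' + u) = a u' ∘ a u := funext fun x => ha.add u' u x
  simp only [h]
  rfl

theorem factors_mem (ha : IsAction a) (C : Algo X K Ga base) (g : Ga) :
    factors C g ∈ ordered a C := by
  refine ⟨(0, g), ?_⟩
  have h : a 0 = id := funext fun x => ha.zero x
  simp only [h]
  rfl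

theorem ordered_le [Finite G] [Finite Ga] (C : Algo X K Ga base) :
    Nat.card (ordered a C) ≤ 2 * (C.products (Set.range a)).ncard := by
  classical
  have hfin := ordered_finite (a := a) C
  have hpfin : (C.products (Set.range a)).Finite := by
    have h1 : C.products (Set.range a) ⊆ Set.range fun p : G × Ga =>
        s(C.left p.2 ∘ a p.1, C.right p.2 ∘ a p.1) := by
      rintro _ ⟨_, ⟨u, rfl⟩, g, rfl⟩
      exact ⟨(u, g), rfl⟩
    exact (Set.finite_range _).subset h1
  have h0 : Nat.card (ordered a C) = hfin.toFinset.card := by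
    rw [Nat.card_coe_set_eq, Set.ncard_eq_toFinset_card _ hfin]
  rw [h0]
  set PS := hfin.toFinset with hPS
  have h2 : PS.card ≤ 2 * (PS.image fun ω => s(ω.1, ω.2)).card := by
    refine Finset.card_le_mul_card_image PS 2 ?_
    intro e he
    rw [Finset.mem_image] at he
    obtain ⟨ω₀, _, rfl⟩ := he
    have h3 : (PS.filter fun ω => s(ω.1, ω.2) = s(ω₀.1, ω₀.2)) ⊆
        {(ω₀.1, ω₀.2), (ω₀.2, ω₀.1)} := by
      intro ω hω
      have h4 := (Finset.mem_filter.mp hω).2
      rw [Sym2.eq_iff] at h4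
      rw [Finset.mem_insert, Finset.mem_singleton]
      rcases h4 with ⟨h5, h6⟩ | ⟨h5, h6⟩
      · exact Or.inl (Prod.ext h5 h6)
      · exact Or.inr (Prod.ext h5 h6)
    exact (Finset.card_le_card h3).trans Finset.card_le_two
  have h3 : (PS.image fun ω => s(ω.1, ω.2)).card ≤ (C.products (Set.range a)).ncard := by
    rw [← Set.ncard_coe_finset]
    refine Set.ncard_le_ncard ?_ hpfin
    intro e he
    rw [Finset.mem_coe, Finset.mem_image] at he
    obtain ⟨ω, hω, rfl⟩ := he
    rw [hPS, Set.Finite.mem_toFinset] at hω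
    obtain ⟨⟨u, g⟩, rfl⟩ := hω
    exact ⟨_, ⟨u, rfl⟩, g, rfl⟩
  exact h2.trans (Nat.mul_le_mul_left _ h3)

end ordered

variable {w n : ℕ} {K : Type} [CommRing K]

/-- The constant function one and the entries of a matrix. -/
def entryFns (n : ℕ) (K : Type) [CommRing K] : Set (Matrix (Fin n) (Fin n) K → K) :=
  {b | b = 1 ∨ ∃ i j, b = fun M => M i j}

section Labelled

variable {Z : Type} (eR : Rw w Z ≃ Fin n) (eC : Cl w Z ≃ Fin n) {Ga : Type} [Finite Ga]

open Classical in
theorem exists_placement' (C : Algo (Matrix (Fin n) (Fin n) K) K Ga (entryFns n K))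
    (π₀ : Slot w ≃ Fin (3 * w) × Bool) (τ : ℕ) (hτ : 3200 * τ ≤ w)
    (hs : Nat.card (ordered (actM eR eC K) C) + 1 < 2 ^ τ) :
    ∃ π : Slot w ≃ Fin (3 * w) × Bool,
      (∀ g, Mid (BB π) τ (stab (isAction_pre2 (isAction_actM eR eC (K := K) π₀))
        (factors C g))) ∧ Mid (BB π) τ (⊤ : Submodule (ZMod 2) (Gp w)) := by
  by_contra hcon
  rw [not_exists] at hcon
  have : Fintype Ga := Fintype.ofFinite Ga
  have ha := isAction_actM eR eC (K := K) π₀
  let st : Ga → Submodule (ZMod 2) (Gp w) := fun g => stab (isAction_pre2 ha) (factors C g)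
  set N := Nat.card (ordered (actM eR eC K) C) with hN
  set S₀ : Finset (Submodule (ZMod 2) (Gp w)) := univ.image st with hS₀
  set S : Finset (Submodule (ZMod 2) (Gp w)) := insert ⊤ S₀ with hS
  set P : ℝ := ((Fintype.card (Slot w ≃ Fin (3 * w) × Bool) : ℕ) : ℝ) with hP
  have hP0 : 0 < P := by
    have : Nonempty (Slot w ≃ Fin (3 * w) × Bool) := ⟨π₀⟩
    rw [hP]
    exact_mod_cast Fintype.card_pos
  set BH : Submodule (ZMod 2) (Gp w) → Finset (Slot w ≃ Fin (3 * w) × Bool) := fun H =>
    univ.filter fun π : Slot w ≃ Fin (3 * w) × Bool =>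
      ∃ l : Slot w → ZMod 2, τ < wt l ∧ wt l ≤ 2 * τ ∧ ∀ h ∈ H, dot l (BB π h) = 0 with hBH
  set HP : Submodule (ZMod 2) (Gp w) → Finset (Gp w) := fun H =>
    univ.filter fun z : Gp w => ∀ h ∈ H, pair h z = 0 with hHP
  have hPc : ∀ H : Submodule (ZMod 2) (Gp w), (HP H).card * Nat.card H = Nat.card (Gp w) := by
    intro H
    rw [hHP, perp_card H, Nat.card_eq_fintype_card]
  have hcov : (univ : Finset (Slot w ≃ Fin (3 * w) × Bool)) ⊆ S.biUnion BH := by
    intro π _
    have h1 := hcon π
    rw [not_and_or] at h1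
    rw [Finset.mem_biUnion]
    rcases h1 with h1 | h1
    · rw [not_forall] at h1
      obtain ⟨g, h1⟩ := h1
      unfold Mid at h1
      push Not at h1
      obtain ⟨l, h2, h3, h4⟩ := h1
      refine ⟨st g, Finset.mem_insert_of_mem (Finset.mem_image_of_mem _ (mem_univ g)), ?_⟩
      rw [hBH]
      exact Finset.mem_filter.mpr ⟨mem_univ _, l, h2, h3, h4⟩
    · unfold Mid at h1
      push Not at h1
      obtain ⟨l, h2, h3, h4⟩ := h1
      refine ⟨⊤, Finset.mem_insert_self _ _, ?_⟩
      rw [hBH]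
      exact Finset.mem_filter.mpr ⟨mem_univ _, l, h2, h3, h4⟩
  have hS₀sum : ∑ H ∈ S₀, ((HP H).card : ℝ) ≤ N := by
    have h1 := sum_index_gen (isAction_pre2 ha) (ordered (actM eR eC K) C) (ordered_finite C)
      (ordered_closed ha C) S₀
      (by
        intro H hH
        rw [hS₀, Finset.mem_image] at hH
        obtain ⟨g, _, hg⟩ := hH
        exact ⟨_, factors_mem ha C g, hg⟩)
      (fun H => (HP H).card) hPc
    rw [← Nat.cast_sum]
    exact_mod_cast h1
  have hSsum : ∑ H ∈ S, ((HP H).card : ℝ) ≤ N + 1 := by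
    have htop : (HP ⊤).card = 1 := by
      have h1 := hPc ⊤
      have h2 : Nat.card (⊤ : Submodule (ZMod 2) (Gp w)) = Nat.card (Gp w) :=
        Nat.card_congr (Equiv.Set.univ _)
      rw [h2] at h1
      exact Nat.eq_of_mul_eq_mul_right Nat.card_pos (by rw [h1, one_mul])
    by_cases h : (⊤ : Submodule (ZMod 2) (Gp w)) ∈ S₀
    · rw [hS, Finset.insert_eq_of_mem h]
      linarith
    · rw [hS, Finset.sum_insert h, htop]
      push_cast
      linarith
  have hfin : P ≤ (N + 1) * (P * (1 / 2) ^ τ) := by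
    calc P = ((univ : Finset (Slot w ≃ Fin (3 * w) × Bool)).card : ℝ) := by
          rw [Finset.card_univ]
      _ ≤ ((S.biUnion BH).card : ℝ) := by exact_mod_cast Finset.card_le_card hcov
      _ ≤ ∑ H ∈ S, ((BH H).card : ℝ) := by exact_mod_cast Finset.card_biUnion_le
      _ ≤ ∑ H ∈ S, ((HP H).card : ℝ) * (P * (1 / 2) ^ τ) :=
          Finset.sum_le_sum fun H _ => bad_one H τ hτ
      _ = (∑ H ∈ S, ((HP H).card : ℝ)) * (P * (1 / 2) ^ τ) := (Finset.sum_mul _ _ _).symm
      _ ≤ _ := mul_le_mul_of_nonneg_right hSsum (by positivity)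
  have h6 : (N : ℝ) + 1 < 2 ^ τ := by exact_mod_cast hs
  have h7 : ((N : ℝ) + 1) * (P * (1 / 2) ^ τ) < 2 ^ τ * (P * (1 / 2) ^ τ) :=
    mul_lt_mul_of_pos_right h6 (by positivity)
  have h8 : (2 : ℝ) ^ τ * (P * (1 / 2) ^ τ) = P := by
    have h9 : (2 : ℝ) ^ τ * (1 / 2) ^ τ = 1 := by
      rw [← mul_pow]
      norm_num
    calc (2 : ℝ) ^ τ * (P * (1 / 2) ^ τ) = P * (2 ^ τ * (1 / 2) ^ τ) := by ring
      _ = P := by rw [h9, mul_one]
  linarith

/-- The labelled version of the lower bound. -/
theorem bound_labelled' [Fintype Z] [Nontrivial K] (hK : ∀ y : K, 2 * y = 0 → y = 0)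
    (C : Algo (Matrix (Fin n) (Fin n) K) K Ga (entryFns n K))
    (hcomp : C.Computes fun M => M.permanent) :
    2 ^ (w / 3200) ≤ 2 * (C.products (Set.range (actM eR eC K))).ncard + 8 := by
  classical
  have h2 : ∀ k : ℕ, (2 : K) ^ k ≠ 0 := by
    intro k
    induction k with
    | zero => simp
    | succ k ih =>
      intro h
      apply ih
      apply hK
      rw [← h, pow_succ]
      ring
  have hcardS : Fintype.card (Slot w) = Fintype.card (Fin (3 * w) × Bool) := by
    rw [Fintype.card_prod, Fintype.card_prod, Fintype.card_fin, Fintype.card_fin,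
      Fintype.card_fin, Fintype.card_bool]
    ring
  let π₀ : Slot w ≃ Fin (3 * w) × Bool := Fintype.equivOfCardEq hcardS
  have ha := isAction_actM eR eC (K := K) π₀
  by_contra hcon
  rw [not_le] at hcon
  set τ : ℕ := w / 3200 with hτ
  have hτ3 : 3 ≤ τ := by
    by_contra hlt
    have h3 : 2 ^ τ ≤ 2 ^ 3 := Nat.pow_le_pow_right (by norm_num) (by omega)
    omega
  have hτw : 3200 * τ ≤ w := Nat.mul_div_le w 3200
  have hord := ordered_le (a := actM eR eC K) C
  obtain ⟨π, hG, htop⟩ := exists_placement' eR eC C π₀ τ hτw (by omega)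
  have hwt : τ < wt (fun _ : Slot w => (1 : ZMod 2)) := by
    have h3 : wt (fun _ : Slot w => (1 : ZMod 2)) = 6 * w := by
      unfold wt
      rw [Finset.filter_true_of_mem (fun _ _ => (by decide : (1 : ZMod 2) ≠ 0)),
        Finset.card_univ, Fintype.card_prod, Fintype.card_fin, Fintype.card_fin]
      ring
    rw [h3]
    omega
  have hbase : ∀ b ∈ entryFns n K, ∀ H : Submodule (ZMod 2) (Gp w), Mid (BB π) τ H →
      ∀ e, Kills (BB π) τ H e →
      ∃ s ∈ H, ∀ t, b (insM eR eC π (t + (e + BB π s))) = b (insM eR eC π t) := by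
    rintro b (rfl | ⟨i, j, rfl⟩) H hH e he
    · exact ⟨0, H.zero_mem, fun t => rfl⟩
    · refine coord_shift (fun M : Matrix (Fin n) (Fin n) K => M i j) (insM eR eC π)
        ((setup K π eR eC).loc (i, j))
        (fun t e h => (setup K π eR eC).loc_x (i, j) t e h)
        (univ.filter fun s : Slot w => ∃ s', eR.symm i = Sum.inl (s.1, s')) ?_ ?_ H hH e he
      · refine le_trans ?_ hτ3
        by_cases hu : ∃ u s', eR.symm i = Sum.inl (u, s')
        · obtain ⟨u, s', hu⟩ := hu
          have h4 : (univ.filter fun s : Slot w => ∃ s', eR.symm i = Sum.inl (s.1, s')) ⊆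
              univ.image fun k : Fin 3 => ((u, k) : Slot w) := by
            intro s hs
            rw [Finset.mem_filter] at hs
            obtain ⟨_, s'', hs''⟩ := hs
            rw [hu] at hs''
            have h5 := Sum.inl_injective hs''
            rw [Finset.mem_image]
            refine ⟨s.2, mem_univ _, ?_⟩
            refine Prod.ext ?_ rfl
            exact congrArg (fun z : Fin (2 * w) × Four => z.1) h5
          refine (Finset.card_le_card h4).trans (Finset.card_image_le.trans ?_)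
          simp
        · have h4 : (univ.filter fun s : Slot w => ∃ s', eR.symm i = Sum.inl (s.1, s')) = ∅ := by
            rw [Finset.filter_eq_empty_iff]
            rintro s _ ⟨s', hs'⟩
            exact hu ⟨s.1, s', hs'⟩
          rw [h4]
          simp
      · intro s hs
        obtain ⟨s', c', h4, _⟩ := hs
        rw [Finset.mem_filter]
        exact ⟨mem_univ _, s', h4⟩
  have hinv : ∀ (u : Gp w) (M : Matrix (Fin n) (Fin n) K),
      (actM eR eC K u M).permanent = M.permanent := by
    intro u M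
    unfold actM
    have h3 : M.submatrix (eR.permCongr (rowAct u.2)) (eC.permCongr (colAct u.1)) =
        (M.submatrix (eR.permCongr (rowAct u.2)) id).submatrix id
          (eC.permCongr (colAct u.1)) := by
      rw [Matrix.submatrix_submatrix]
      rfl
    rw [h3, Matrix.permanent_permute_rows, Matrix.permanent_permute_cols]
  obtain ⟨e, he, hshift⟩ := output_shift ha (insM eR eC π)
    (actM_insM eR eC π) hK hbase C hG htop _ hcomp hinv _ hwt
  have hval : ∀ t, (insM eR eC π t : Matrix (Fin n) (Fin n) K).permanent = (PP π t : K) := by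
    intro t
    exact permanent_eq (K := K) π eR eC t
  have hPP : ∀ t, (PP π (t + e) : K) = (PP π t : K) := by
    intro t
    rw [← hval, ← hval]
    exact hshift t
  have hchi : chi e = -1 := by
    rw [chi_eq_sg]
    have h5 : ∑ s, e s = 1 := by
      rw [← he]
      unfold dot
      exact Finset.sum_congr rfl fun s _ => (one_mul _).symm
    rw [h5]
    rfl
  have hsum := congrArg (Int.cast : ℤ → K) (sum_PP π)
  rw [Int.cast_sum] at hsum
  have hneg : ∑ t : Slot w → ZMod 2, ((chi t * PP π t : ℤ) : K) =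
      - ∑ t : Slot w → ZMod 2, ((chi t * PP π t : ℤ) : K) := by
    calc ∑ t : Slot w → ZMod 2, ((chi t * PP π t : ℤ) : K)
        = ∑ t : Slot w → ZMod 2, ((chi (t + e) * PP π (t + e) : ℤ) : K) :=
          (Equiv.sum_comp (Equiv.addRight e)
            (fun t : Slot w → ZMod 2 => ((chi t * PP π t : ℤ) : K))).symm
      _ = ∑ t : Slot w → ZMod 2, -((chi t * PP π t : ℤ) : K) := by
          refine Finset.sum_congr rfl fun t _ => ?_
          rw [chi_add, hchi, Int.cast_mul, hPP]
          push_cast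
          ring
      _ = _ := Finset.sum_neg_distrib _
  have hzero : (2 : K) * ∑ t : Slot w → ZMod 2, ((chi t * PP π t : ℤ) : K) = 0 := by
    rw [two_mul]
    nth_rewrite 1 [hneg]
    exact neg_add_cancel _
  rw [hsum] at hzero
  have h6 : (2 : K) ^ (1 + 3 * (2 * w) + 3 * w) = 0 := by
    have h7 : (((8 ^ (2 * w) * (-2) ^ (3 * w) : ℤ)) : K) =
        (-1) ^ (3 * w) * ((2 : K) ^ (3 * (2 * w)) * 2 ^ (3 * w)) := by
      push_cast
      have h8 : (8 : K) = 2 ^ 3 := by norm_num
      rw [h8, ← pow_mul]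
      have h9 : (-2 : K) ^ (3 * w) = (-1) ^ (3 * w) * 2 ^ (3 * w) := by
        rw [← mul_pow]
        norm_num
      rw [h9]
      ring
    rw [h7] at hzero
    have h10 : ((-1 : K)) ^ (3 * w) * (-1) ^ (3 * w) = 1 := by
      rw [← mul_pow]
      norm_num
    calc (2 : K) ^ (1 + 3 * (2 * w) + 3 * w)
        = ((-1) ^ (3 * w) * (-1) ^ (3 * w)) * (2 ^ (1 + 3 * (2 * w) + 3 * w)) := by
          rw [h10, one_mul]
      _ = (-1) ^ (3 * w) *
          (2 * ((-1) ^ (3 * w) * ((2 : K) ^ (3 * (2 * w)) * 2 ^ (3 * w)))) := by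
          rw [pow_add, pow_add, pow_one]
          ring
      _ = 0 := by rw [hzero, mul_zero]
  exact h2 _ h6

end Labelled

/-- **The lower bound for the permanent.** -/
theorem perm_products [Nontrivial K] (hK : ∀ y : K, 2 * y = 0 → y = 0)
    (hn : 8 * w ≤ n) (ρ : Fin (2 * w) × Four ↪ Fin n) (κ : Fin (3 * w) × ZMod 2 ↪ Fin n)
    {Ga : Type} [Finite Ga] (C : Algo (Matrix (Fin n) (Fin n) K) K Ga (entryFns n K))
    (hcomp : C.Computes fun M => M.permanent) :
    2 ^ (w / 3200) ≤ 2 * (C.products (blockMoves K ρ κ)).ncard + 8 := by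
  classical
  obtain ⟨eR, heR⟩ := exists_extend (γ := Fin (n - 8 * w)) ρ (by
    rw [Fintype.card_prod, Fintype.card_prod, Fintype.card_fin, Fintype.card_fin,
      Fintype.card_fin, ZMod.card]
    omega)
  obtain ⟨eC', heC'⟩ := exists_extend (γ := Fin (2 * w) ⊕ Fin (n - 8 * w)) κ (by
    rw [Fintype.card_sum, Fintype.card_prod, Fintype.card_fin, Fintype.card_fin,
      Fintype.card_fin, Fintype.card_fin, ZMod.card]
    omega)
  let eC : Cl w (Fin (n - 8 * w)) ≃ Fin n := (Equiv.sumAssoc _ _ _).trans eC'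
  have heC : ∀ x, eC (Sum.inl (Sum.inl x)) = κ x := heC'
  have h3 : ∀ U, eR.permCongr (rowAct U) = (quadPerm U).viaEmbedding ρ := by
    intro U
    refine Equiv.ext fun b => ?_
    obtain ⟨r, rfl⟩ := eR.surjective b
    rw [Equiv.permCongr_apply, Equiv.symm_apply_apply]
    rcases r with x | z
    · rw [heR, Equiv.Perm.viaEmbedding_apply, ← heR]
      rfl
    · rw [Equiv.Perm.viaEmbedding_apply_of_notMem]
      · rfl
      · rintro ⟨x, hx⟩
        rw [← heR] at hx
        exact Sum.inl_ne_inr (eR.injective hx)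
  have h4 : ∀ a, eC.permCongr (colAct a) = (pairPerm a).viaEmbedding κ := by
    intro a
    refine Equiv.ext fun b => ?_
    obtain ⟨r, rfl⟩ := eC.surjective b
    rw [Equiv.permCongr_apply, Equiv.symm_apply_apply]
    rcases r with (x | u) | z
    · rw [heC, Equiv.Perm.viaEmbedding_apply, ← heC]
      rfl
    · rw [Equiv.Perm.viaEmbedding_apply_of_notMem]
      · rfl
      · rintro ⟨x, hx⟩
        rw [← heC] at hx
        exact Sum.inl_ne_inr (Sum.inl.inj (eC.injective hx))
    · rw [Equiv.Perm.viaEmbedding_apply_of_notMem]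
      · rfl
      · rintro ⟨x, hx⟩
        rw [← heC] at hx
        exact Sum.inl_ne_inr (eC.injective hx)
  have h5 : blockMoves K ρ κ = Set.range (actM eR eC K) := by
    unfold blockMoves
    refine congrArg Set.range (funext fun h => funext fun M => ?_)
    unfold actM
    rw [h3, h4]
  rw [h5]
  exact bound_labelled' eR eC hK C hcomp

end Pool.Agent.H429R4.PO
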